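import Mathlib
import Pool.Agent.H21.PSTDef
import Pool.Agent.H21.FREx

namespace Pool.Agent.Results.MP_8f05cb_co.Sparse

open Pool.Agent.H21 Pool.Agent.H21.PSTDef Matrix Finset

section
variable {c : ℕ} {C E : Type} [Fintype C] [DecidableEq C] [Fintype E] [DecidableEq E]
  (N : E → Finset C)

def r : Bool ⊕ E → Fin c ⊕ C → Prop
  | .inl _, _ => True
  | .inr _, .inl _ => False
  | .inr e, .inr v => v ∈ N e

def adj : (Bool ⊕ E) ⊕ (Fin c ⊕ C) → (Bool ⊕ E) ⊕ (Fin c ⊕ C) → Prop
  | .inl x, .inr y => r N x y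
  | .inr y, .inl x => r N x y
  | _, _ => False

def G : SimpleGraph ((Bool ⊕ E) ⊕ (Fin c ⊕ C)) where
  Adj := adj N
  symm := ⟨by rintro (x | x) (y | y) h <;> exact h⟩
  loopless := ⟨by rintro (x | x) h <;> exact h⟩

noncomputable instance : DecidableRel (G (c := c) N).Adj := Classical.decRel _

def F (w θ : ℂ) : (Bool ⊕ E) ⊕ (Fin c ⊕ C) → ℂ :=
  Sum.elim (Sum.elim (fun _ => θ * (θ ^ 2 - w)) fun e => 2 * θ * (N e).card)
    (Sum.elim (fun _ => 2 * (θ ^ 2 - w)) fun _ => 2 * θ ^ 2)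

theorem eig (w : ℕ) (hw : ∀ v, (∑ e, if v ∈ N e then (N e).card else 0) = w) (θ : ℂ)
    (h : (θ ^ 2 - 2 * c) * (θ ^ 2 - w) = 2 * Fintype.card C * θ ^ 2) :
    (G (c := c) N).adjMatrix ℂ *ᵥ F N w θ = θ • F N w θ := by
  ext x
  simp only [mulVec, dotProduct, SimpleGraph.adjMatrix_apply, Fintype.sum_sum_type, G]
  rcases x with (x | e) | (i | v) <;> simp [adj, r, F]
  · linear_combination -h
  · ring
  · ring
  · have := congrArg (Nat.cast : ℕ → ℂ) (hw v)
    push_cast at this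
    simp only [← mul_ite_zero, ← mul_sum, this]; ring

theorem pst (w Δ : ℕ) (hw : ∀ v, (∑ e, if v ∈ N e then (N e).card else 0) = w) (hΔ : 0 < Δ)
    (h1 : 2 * c * w = 9 * Δ ^ 2) (h2 : 2 * c + w + 2 * Fintype.card C = 10 * Δ) :
    AdmitsPST (G (c := c) N) := by
  have hs : ((√Δ : ℝ) : ℂ) ^ 2 = Δ := by exact_mod_cast Real.sq_sqrt (Nat.cast_nonneg Δ)
  have h0 : ((√Δ : ℝ) : ℂ) ≠ 0 := by exact_mod_cast (by positivity : (√Δ : ℝ) ≠ 0)
  set s : ℂ := ((√(Δ : ℝ) : ℝ) : ℂ) with hsd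
  refine ⟨.inl (.inl false), .inl (.inl true), Real.pi / √Δ, -1, by simp, by simp, ?_⟩
  set U := NormedSpace.exp ((Complex.I * (Real.pi / √Δ : ℝ)) • (G (c := c) N).adjMatrix ℂ) with hU
  have f : ∀ k : ℤ, Odd k → (k ^ 2 - 1 : ℂ) * (k ^ 2 - 9) = 0 →
      U *ᵥ F N w (k * s) = -F N w (k * s) := fun k hk hk' => by
    have h1 : (2 * c * w : ℂ) = 9 * Δ ^ 2 := by exact_mod_cast h1
    have h2 : (2 * c + w + 2 * Fintype.card C : ℂ) = 10 * Δ := by exact_mod_cast h2
    have := eig (c := c) N w hw (k * s) (by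
      rw [mul_pow, hs]; linear_combination h1 - k ^ 2 * Δ * h2 + Δ ^ 2 * hk')
    rw [hU, FREx.exp_mulVec _ _ (Complex.I * (Real.pi / √Δ : ℝ) * (k * s))
      (by rw [smul_mulVec, this, smul_smul]),
      show Complex.I * (Real.pi / √Δ : ℝ) * (k * s) = k * (Real.pi * Complex.I) by
        push_cast; rw [← hsd]; field_simp,
      Complex.exp_int_mul, Complex.exp_pi_mul_I, hk.neg_one_zpow, neg_one_smul]
  have f1 := f 1 (by decide) (by norm_num)
  have f2 := f (-1) (by decide) (by norm_num)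
  have f3 := f 3 (by decide) (by norm_num)
  have f4 := f (-3) (by decide) (by norm_num)
  have e : (48 * s ^ 3) • (Pi.single (.inl (.inl false)) 1 + Pi.single (.inl (.inl true)) 1) =
      F (c := c) N w ((3 : ℤ) * s) - F N w ((-3 : ℤ) * s) -
        (3 : ℂ) • (F N w ((1 : ℤ) * s) - F N w ((-1 : ℤ) * s)) := by
    ext x
    rcases x with (x | e) | (i | v)
    · cases x <;> simp [F] <;> ring
    all_goals (simp [F]; try ring)
  have p1 := congrArg (U *ᵥ ·) e
  simp only [mulVec_sub, mulVec_smul, f1, f2, f3, f4, mulVec_add] at p1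
  have p2 : U *ᵥ (Pi.single (.inl (.inl false)) 1 - Pi.single (.inl (.inl true)) 1) =
      Pi.single (.inl (.inl false)) 1 - Pi.single (.inl (.inl true)) 1 := by
    rw [hU, FREx.exp_mulVec _ _ 0, Complex.exp_zero, one_smul]
    rw [smul_mulVec, zero_smul, mulVec_sub, mulVec_single_one, mulVec_single_one]
    ext x
    rcases x with (x | e) | (i | v) <;> simp [G, adj, r]
  rw [mulVec_sub] at p2
  apply smul_right_injective _ (show 96 * s ^ 3 ≠ 0 by simp [h0])
  simp only
  linear_combination (norm := module) p1 + (48 * s ^ 3) • p2 + e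

theorem conn (hc : 0 < c) (hN : ∀ e, (N e).Nonempty) : (G (c := c) N).Connected := by
  have h : ∀ x y, (G (c := c) N).Reachable (.inl (.inl x)) (.inr y) := fun x y =>
    SimpleGraph.Adj.reachable (by simp [G, adj, r])
  refine (SimpleGraph.connected_iff_exists_forall_reachable _).mpr ⟨.inl (.inl false), ?_⟩
  rintro ((x | e) | y)
  · exact (h _ (.inl ⟨0, hc⟩)).trans (h _ _).symm
  · obtain ⟨v, hv⟩ := hN e
    exact (h _ (.inr v)).trans (SimpleGraph.Adj.reachable hv)
  · exact h _ _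

theorem edges : (G (c := c) N).edgeFinset.card ≤ 2 * (c + Fintype.card C) + ∑ e, (N e).card := by
  classical
  have : (G (c := c) N).edgeFinset ⊆ (univ.filter fun p : (Bool ⊕ E) × (Fin c ⊕ C) =>
      r N p.1 p.2).image fun p => s(.inl p.1, .inr p.2) := by
    intro e he
    induction e using Sym2.ind with
    | _ x y =>
      rw [SimpleGraph.mem_edgeFinset, SimpleGraph.mem_edgeSet] at he
      rcases x with x | x <;> rcases y with y | y
      · exact he.elim
      · exact mem_image.mpr ⟨(x, y), mem_filter.mpr ⟨mem_univ _, he⟩, rfl⟩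
      · exact mem_image.mpr ⟨(y, x), mem_filter.mpr ⟨mem_univ _, he⟩, Sym2.eq_swap⟩
      · exact he.elim
  refine (card_le_card this).trans (card_image_le.trans (le_of_eq ?_))
  rw [card_filter, Fintype.sum_prod_type]
  simp [Fintype.sum_sum_type, r]
  refine sum_congr rfl fun e _ => ?_
  convert (show (∑ x, if x ∈ N e then 1 else 0) = (N e).card by simp)

theorem gen (c w Δ n : ℕ) (hN : ∀ e, (N e).Nonempty)
    (hw : ∀ v, (∑ e, if v ∈ N e then (N e).card else 0) ≤ w) (hΔ : 0 < Δ)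
    (h1 : 2 * c * w = 9 * Δ ^ 2) (h2 : 2 * c + w + 2 * Fintype.card C = 10 * Δ)
    (hn : n + ∑ e, (N e).card ^ 2 = 2 + c + Fintype.card C + Fintype.card E + Fintype.card C * w) :
    ∃ k : ℕ, minEdges n ≤ k ∧
      k + 2 + Fintype.card E ≤ n + c + Fintype.card C + ∑ e, (N e).card := by
  let N' : E ⊕ (Σ v : C, Fin (w - ∑ e, if v ∈ N e then (N e).card else 0)) → Finset C :=
    Sum.elim N fun p => {p.1}
  have hc : 0 < c := by
    rcases c with _ | c
    · simp at h1; omega
    · omega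
  have hl : (∑ v, (w - ∑ e, if v ∈ N e then (N e).card else 0)) + ∑ e, (N e).card ^ 2 =
      Fintype.card C * w := by
    have : ∑ e, (N e).card ^ 2 = ∑ v, ∑ e, if v ∈ N e then (N e).card else 0 := by
      rw [sum_comm]; simp [sq]
    rw [this, ← sum_add_distrib, sum_congr rfl fun v _ => Nat.sub_add_cancel (hw v)]
    simp
  refine ⟨_, sInf_le ⟨_, inferInstance, inferInstance, G (c := c) N', inferInstance, ?_,
    conn N' hc ?_, pst N' w Δ (fun v => ?_) hΔ h1 h2, rfl⟩, ?_⟩
  · simp; omega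
  · rintro (e | p)
    · exact hN e
    · simp [N']
  · rw [Fintype.sum_sum_type, Fintype.sum_sigma]
    simp only [N', Sum.elim_inl, Sum.elim_inr, mem_singleton, card_singleton, sum_const, card_univ,
      Fintype.card_fin, smul_eq_mul, mul_ite, mul_one, mul_zero, sum_ite_eq, mem_univ, if_true]
    exact Nat.add_sub_cancel' (hw v)
  · have := edges (c := c) N'
    rw [Fintype.sum_sum_type] at this
    simp only [show ∀ e, N' (.inl e) = N e from fun _ => rfl,
      show ∀ p, N' (.inr p) = {p.1} from fun _ => rfl, card_singleton, sum_const, card_univ,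
      Fintype.card_sigma, Fintype.card_fin, smul_eq_mul, mul_one] at this
    omega
end

theorem big (k x y n : ℕ) (hk : 7 ≤ k) (hx : x ≤ k * 16) (hy : y ≤ 2)
    (hn : n + 3 * x + 8 * y = 24 * k ^ 2 + 7 * k + 2) :
    ∃ m : ℕ, minEdges n ≤ m ∧ m ≤ n + 23 * k + 2 := by
  obtain ⟨T, -, hT⟩ := exists_subset_card_eq (s := (univ : Finset (Fin k × Fin 16))) (n := x)
    (by simpa using hx)
  let z : Fin k := ⟨0, by omega⟩
  let N : T ⊕ Fin y → Finset (Fin k × Fin 4) :=
    Sum.elim (fun e => {e.1.1} ×ˢ {0, 1}) fun _ => {z} ×ˢ {0, 1, 2}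
  have c2 : ∀ e, (N (.inl e)).card = 2 := fun e => by simp [N]
  have c3 : ∀ e, (N (.inr e)).card = 3 := fun e => by simp [N]
  obtain ⟨m, h1, h2⟩ := gen N (3 * k) (6 * k) (2 * k) n
    (fun e => card_pos.mp (by rcases e with e | e <;> simp [c2, c3]))
    (fun v => by
      rw [Fintype.sum_sum_type]
      have a1 : (∑ e : T, if v ∈ N (.inl e) then (N (.inl e)).card else 0) ≤ 32 :=
        calc _ ≤ ∑ e : T, if v.1 = e.1.1 then 2 else 0 := sum_le_sum fun e _ => by
              rw [c2]; split_ifs with h h' <;> try omega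
              exact absurd (mem_singleton.mp (mem_product.mp h).1) h'
          _ ≤ ∑ e : Fin k × Fin 16, if v.1 = e.1 then 2 else 0 := by
              rw [sum_coe_sort T fun e => if v.1 = e.1 then 2 else 0]
              exact sum_le_sum_of_subset (subset_univ _)
          _ = 32 := by rw [Fintype.sum_prod_type, sum_comm]; simp
      have a2 := sum_le_card_nsmul univ
        (fun e : Fin y => if v ∈ N (.inr e) then (N (.inr e)).card else 0) 3 fun e _ => by
          rw [c3]; split_ifs <;> omega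
      simp only [card_univ, Fintype.card_fin, smul_eq_mul] at a2
      omega)
    (by omega) (by ring) (by simp; omega) (by simp [c2, c3, hT]; nlinarith)
  simp [c2, c3, hT] at h2
  exact ⟨m, h1, by omega⟩

theorem two : minEdges 2 ≤ 1 := by
  refine sInf_le ⟨Bool, inferInstance, inferInstance, ⊤, inferInstance, rfl,
    SimpleGraph.connected_top, ⟨false, true, Real.pi / 2, Complex.I, by simp, by simp, ?_⟩, ?_⟩
  · have f : ∀ e : ℤ, e = 1 ∨ e = -1 → NormedSpace.exp ((Complex.I * (Real.pi / 2 : ℝ)) •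
        (⊤ : SimpleGraph Bool).adjMatrix ℂ) *ᵥ (Pi.single false 1 + (e : ℂ) • Pi.single true 1) =
        (e * Complex.I) • (Pi.single false 1 + (e : ℂ) • Pi.single true 1) := fun e he => by
      rw [FREx.exp_mulVec _ _ (e * (Real.pi / 2 * Complex.I))]
      · rcases he with rfl | rfl <;> simp [Complex.exp_neg]
      · ext x
        rcases he with rfl | rfl <;> cases x <;> simp [mulVec, dotProduct, mul_comm]
    have f1 := f 1 (.inl rfl)
    have f2 := f (-1) (.inr rfl)
    rw [mulVec_add, mulVec_smul] at f1 f2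
    push_cast at f1 f2 ⊢
    apply smul_right_injective _ (two_ne_zero (α := ℂ))
    simp only
    linear_combination (norm := module) f1 + f2
  · rw [SimpleGraph.card_edgeFinset_top_eq_card_choose_two]; rfl

theorem upper (n : ℕ) (hn : 2 ≤ n) : ∃ k : ℕ, minEdges n ≤ k ∧ (k : ℝ) ≤ n + 32 * √n := by
  have hs : √n ^ 2 = n := Real.sq_sqrt (Nat.cast_nonneg n)
  have h0 := Real.sqrt_nonneg n
  obtain rfl | hn := hn.eq_or_lt
  · exact ⟨1, two, by push_cast at *; linarith⟩
  by_cases h : n ≤ 1024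
  · obtain ⟨k, h1, h2⟩ := gen (C := Empty) (E := Empty) (fun _ => ∅) (n - 2) (18 * (n - 2))
      (2 * (n - 2)) n (fun e => e.elim) (fun e => e.elim) (by omega) (by ring) (by simp; omega)
      (by simp; omega)
    simp at h2
    have h3 : (k : ℝ) ≤ n + n := by exact_mod_cast (by omega : k ≤ n + n)
    have h4 : √n ≤ 32 := Real.sqrt_le_iff.mpr ⟨by norm_num, by norm_num; exact_mod_cast h⟩
    exact ⟨k, h1, by nlinarith⟩
  have ex : ∃ k, n + 14 ≤ 24 * k ^ 2 + 7 * k + 2 := ⟨n + 14, by nlinarith⟩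
  have h1 := Nat.find_spec ex
  obtain ⟨k, hk⟩ : ∃ k, Nat.find ex = k + 1 := Nat.exists_eq_succ_of_ne_zero fun e => by
    rw [e] at h1; omega
  have h2 := Nat.find_min ex (m := k) (by omega)
  rw [hk] at h1
  have h3 : 6 ≤ k := by nlinarith
  obtain ⟨d, hd⟩ := Nat.exists_eq_add_of_le h1
  have e : 24 * (k + 1) ^ 2 = 24 * k ^ 2 + 48 * k + 24 := by ring
  obtain ⟨m, h4, h5⟩ := big (k + 1) ((14 + d - 8 * (2 * (14 + d) % 3)) / 3) (2 * (14 + d) % 3) n
    (by omega) (by omega) (by omega) (by omega)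
  have h6 : (24 * k ^ 2 : ℝ) ≤ n := by exact_mod_cast (by omega : 24 * k ^ 2 ≤ n)
  have h7 : (m : ℝ) ≤ n + 23 * (k + 1) + 2 := by exact_mod_cast h5
  have h8 : (6 : ℝ) ≤ k := by exact_mod_cast h3
  have h9 : (k : ℝ) ≤ √n := Real.le_sqrt_of_sq_le (by nlinarith)
  exact ⟨m, h4, by linarith⟩

theorem result (n : ℕ) (hn : 2 ≤ n) :
    ∃ k : ℕ, minEdges n = k ∧ n - 1 ≤ k ∧ (k : ℝ) ≤ n + 32 * √n := by
  obtain ⟨k, h1, h2⟩ := upper n hn
  obtain ⟨j, hj⟩ := ENat.ne_top_iff_exists.mp (ne_top_of_le_ne_top (ENat.coe_ne_top k) h1)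
  have h3 : ((n - 1 : ℕ) : ℕ∞) ≤ minEdges n := le_sInf (by
    rintro _ ⟨V, _, _, G, _, rfl, hG, -, rfl⟩
    have := hG.card_vert_le_card_edgeSet_add_one
    rw [Nat.card_eq_fintype_card, Nat.card_eq_fintype_card, ← SimpleGraph.edgeFinset_card] at this
    exact_mod_cast (by omega))
  rw [← hj] at h1 h3
  refine ⟨j, hj.symm, by exact_mod_cast h3, le_trans ?_ h2⟩
  exact_mod_cast h1

end Pool.Agent.Results.MP_8f05cb_co.Sparse
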